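import Mathlib

namespace Pool.Agent.Results.MP_6f1842_lc.Borel
open Filter Topology Finset UniformSpace

/-- Kazhdan subsets of `ℤ`. -/
def Kazhdan (Q : Set ℤ) : Prop :=
  ∃ ε > (0 : ℝ), ∀ (H : Type) [NormedAddCommGroup H] [InnerProductSpace ℂ H] [CompleteSpace H]
    (U : H ≃ₗᵢ[ℂ] H) (x : H), ‖x‖ = 1 → (∃ c < ε, ∀ n ∈ Q, ‖(U ^ n) x - x‖ ≤ c) →
      ∃ y, y ≠ 0 ∧ U y = y

def Sys (Q : Set ℤ) (ε : ℝ) (N : ℕ) : Prop :=
  ∃ (H : Type) (_ : NormedAddCommGroup H) (_ : InnerProductSpace ℂ H) (_ : CompleteSpace H)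
    (U : H ≃ₗᵢ[ℂ] H) (x : H), ‖x‖ = 1 ∧ (∀ n ∈ Q, ‖(U ^ n) x - x‖ ≤ ε) ∧
      ‖∑ i ∈ range (N + 1), (U ^ (i : ℤ)) x‖ ≤ (N + 1) / 2

theorem st {H : Type} [NormedAddCommGroup H] [NormedSpace ℂ H] (U : H ≃ₗᵢ[ℂ] H) (n : ℤ) (x : H) :
    U ((U ^ n) x) = (U ^ (n + 1)) x := by rw [add_comm, zpow_one_add]; rfl

theorem orb {H : Type} [NormedAddCommGroup H] [NormedSpace ℂ H] (U : H ≃ₗᵢ[ℂ] H) (f : ℤ → H)
    (h : ∀ n, U (f n) = f (n + 1)) (n : ℤ) : (U ^ n) (f 0) = f n := by
  induction n using Int.induction_on with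
  | zero => rfl
  | succ n ih => rw [add_comm, zpow_one_add, add_comm, ← h, ← ih]; rfl
  | pred n ih =>
    apply U.injective
    rw [h, st, sub_add_cancel, ih]

theorem comp {V : Type} [SeminormedAddCommGroup V] [InnerProductSpace ℂ V] (S : V ≃ₗᵢ[ℂ] V) :
    ∃ U : Completion V ≃ₗᵢ[ℂ] Completion V, ∀ v : V, U v = S v := by
  let A := (S : V →L[ℂ] V).completion
  let B := (S.symm : V →L[ℂ] V).completion
  refine ⟨LinearIsometryEquiv.ofSurjective ⟨A, fun x => ?_⟩ fun x => ⟨B x, ?_⟩, fun v => ?_⟩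
  · exact Completion.induction_on x (isClosed_eq (by fun_prop) (by fun_prop)) fun a => by simp [A]
  · change A (B x) = x
    exact Completion.induction_on x (isClosed_eq (by fun_prop) (by fun_prop)) fun a => by
      simp [A, B]
  · change A v = _
    simp [A]

theorem gns {V : Type} [AddCommGroup V] [Module ℂ V] (c : PreInnerProductSpace.Core ℂ V)
    (S : V ≃ₗ[ℂ] V) (hS : ∀ v, c.inner (S v) (S v) = c.inner v v) :
    ∃ (H : Type) (_ : NormedAddCommGroup H) (_ : InnerProductSpace ℂ H) (_ : CompleteSpace H)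
      (U : H ≃ₗᵢ[ℂ] H) (e : V →ₗ[ℂ] H), (∀ v, ‖e v‖ = √(c.inner v v).re) ∧
        ∀ v, U (e v) = e (S v) := by
  letI := InnerProductSpace.Core.toSeminormedAddCommGroup (c := c)
  letI := InnerProductSpace.ofCore c
  obtain ⟨U, hU⟩ := comp (V := V) ⟨S, fun v => congrArg (fun z : ℂ => √z.re) (hS v)⟩
  exact ⟨Completion V, inferInstance, inferInstance, inferInstance, U,
    (Completion.toComplL (𝕜 := ℂ) (E := V)).toLinearMap, fun v => Completion.norm_coe v, hU⟩

theorem closed (ε : ℝ) (N : ℕ) : IsClosed {q : ℤ → Bool | Sys {n | q n} ε N} := by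
  refine isClosed_of_closure_subset fun q hq => ?_
  obtain ⟨r, h1, h2⟩ := mem_closure_iff_seq_limit.1 hq
  choose H i1 i2 i3 U x hx hQ hN using h1
  let T : ∀ j, (ℤ →₀ ℂ) →ₗ[ℂ] H j := fun j =>
    Finsupp.linearCombination ℂ fun n : ℤ => (U j ^ n) (x j)
  have bd : ∀ a j, ‖T j a‖ ≤ ∑ n ∈ a.support, ‖a n‖ := fun a j =>
    norm_sum_le_of_le _ fun n _ => by simp [norm_smul, hx]
  let W := hyperfilter ℕ
  have ex : ∀ a b, ∃ z : ℂ, Tendsto (fun j => inner ℂ (T j a) (T j b)) W (𝓝 z) := fun a b => by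
    obtain ⟨s, -, hs⟩ := (isCompact_closedBall (0 : ℂ) ((∑ n ∈ a.support, ‖a n‖) *
      ∑ n ∈ b.support, ‖b n‖)).ultrafilter_le_nhds (W.map fun j => inner ℂ (T j a) (T j b)) (by
        simp only [Ultrafilter.coe_map, le_principal_iff, Filter.mem_map]
        exact univ_mem' fun j => mem_closedBall_zero_iff.2 ((norm_inner_le_norm _ _).trans
          (mul_le_mul (bd a j) (bd b j) (norm_nonneg _) (by positivity))))
    exact ⟨s, hs⟩
  choose I hI using ex
  let S : (ℤ →₀ ℂ) ≃ₗ[ℂ] (ℤ →₀ ℂ) := Finsupp.domLCongr (Equiv.addRight 1)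
  have hS : ∀ j a, T j (S a) = U j (T j a) := fun j a => by
    induction a using Finsupp.induction_linear with
    | zero => simp
    | add a b h h' => simp only [map_add, h, h']
    | single n z => simp [S, T, add_comm n, zpow_one_add]
  obtain ⟨K, j1, j2, j3, V, e, he, hV⟩ := gns (V := ℤ →₀ ℂ)
    { inner := I
      conj_inner_symm a b := tendsto_nhds_unique
        (by simpa [Function.comp_def] using (Complex.continuous_conj.tendsto _).comp (hI b a))
        (hI a b)
      re_inner_nonneg a := ge_of_tendsto' ((Complex.continuous_re.tendsto _).comp (hI a a))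
        fun j => inner_self_nonneg (𝕜 := ℂ)
      add_left a b c := tendsto_nhds_unique (hI _ _)
        (by simpa only [map_add, inner_add_left] using (hI a c).add (hI b c))
      smul_left a b z := tendsto_nhds_unique (hI _ _)
        (by simpa only [map_smul, inner_smul_left] using (hI a b).const_mul _) } S
    fun a => tendsto_nhds_unique (hI _ _)
      (by simp only [hS, LinearIsometryEquiv.inner_map_map]; exact hI a a)
  have lim : ∀ a, Tendsto (fun j => ‖T j a‖) W (𝓝 ‖e a‖) := fun a => by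
    rw [he]
    refine (((Complex.continuous_re.tendsto _).comp (hI a a)).sqrt).congr fun j => ?_
    exact (norm_eq_sqrt_re_inner (𝕜 := ℂ) _).symm
  have o := orb V (fun n => e (Finsupp.single n 1)) fun n => by simp [hV, S]
  have tS : ∀ j n, T j (Finsupp.single n 1) = (U j ^ n) (x j) := fun j n => by simp [T]
  refine ⟨K, j1, j2, j3, V, e (Finsupp.single 0 1), ?_, fun n hn => ?_, ?_⟩
  · exact tendsto_nhds_unique (lim _) (by simp [tS, hx])
  · rw [o, ← map_sub]
    refine le_of_tendsto (lim _) ?_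
    have := (((continuous_apply n).tendsto q).comp h2).mono_left Nat.hyperfilter_le_atTop
    filter_upwards [this ((isOpen_discrete {q n}).mem_nhds rfl)] with j hj
    simpa [tS] using hQ j n (Eq.trans hj hn)
  · simp only [o, ← map_sum]
    exact le_of_tendsto' (lim _) fun j => by simpa only [map_sum, tS] using hN j

theorem not_iff (Q : Set ℤ) : ¬ Kazhdan Q ↔ ∀ k : ℕ, ∃ N, Sys Q (1 / (k + 1)) N := by
  constructor
  · intro h k
    unfold Kazhdan at h
    push Not at h
    obtain ⟨H, i1, i2, i3, U, x, hx, ⟨c, h1, h2⟩, h3⟩ := h (1 / (k + 1)) (by positivity)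
    have t := (U : H →L[ℂ] H).tendsto_birkhoffAverage_orthogonalProjection
      (U.toLinearIsometry.norm_toContinuousLinearMap_le) x
    set p := ((U : H →L[ℂ] H).eqLocus (1 : H →L[ℂ] H)).orthogonalProjectionOnto x
    have : (p : H) = 0 := by_contra fun h => h3 _ h p.2
    rw [this] at t
    obtain ⟨N, hN⟩ := (((tendsto_add_atTop_iff_nat 1).2 t).norm.eventually_le_const
      (u := 1 / 2) (by simp)).exists
    refine ⟨N, H, i1, i2, i3, U, x, hx, fun n hn => (h2 n hn).trans h1.le, ?_⟩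
    have e : ∀ i : ℕ, (U ^ (i : ℤ)) x = U^[i] x := fun i => by
      rw [zpow_natCast]
      exact congrFun (hom_coe_pow (fun U : H ≃ₗᵢ[ℂ] H => ⇑U) rfl (fun _ _ => rfl) U i) x
    simp only [birkhoffAverage, birkhoffSum, norm_smul, norm_inv, RCLike.norm_natCast, id] at hN
    rw [inv_mul_le_iff₀ (by positivity)] at hN
    simp only [e]
    push_cast at hN
    exact le_of_le_of_eq hN (by ring)
  · rintro h ⟨ε, hε, hK⟩
    obtain ⟨k, hk⟩ := exists_nat_one_div_lt (half_pos hε)
    obtain ⟨N, H, i1, i2, i3, U, x, hx, h1, h2⟩ := h k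
    let F := (U : H →L[ℂ] H).eqLocus (1 : H →L[ℂ] H)
    let p := F.starProjection x
    have fix : ∀ y ∈ F, ∀ n : ℤ, (U ^ n) y = y := fun y hy => orb U (fun _ => y) fun _ => hy
    have inv : ∀ n : ℤ, ∀ y ∈ Fᗮ, (U ^ n) y ∈ Fᗮ := fun n y hy u hu => by
      rw [← fix u hu n, LinearIsometryEquiv.inner_map_map]; exact hy u hu
    have pF : p ∈ F := F.starProjection_apply_mem x
    have xp : x - p ∈ Fᗮ := F.sub_starProjection_mem_orthogonal x
    have pp : ‖p‖ ≤ 1 / 2 := by
      have a : inner ℂ p x = inner ℂ p p := sub_eq_zero.1 ((inner_sub_right _ _ _).symm.trans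
        (xp p pF))
      have b : inner ℂ p (∑ i ∈ range (N + 1), (U ^ (i : ℤ)) x) = (N + 1 : ℕ) * inner ℂ p p := by
        rw [inner_sum, sum_congr rfl fun i _ => by
          rw [← fix p pF i, LinearIsometryEquiv.inner_map_map, a]]
        simp
      have c := norm_inner_le_norm (𝕜 := ℂ) p (∑ i ∈ range (N + 1), (U ^ (i : ℤ)) x)
      rw [b, norm_mul, inner_self_eq_norm_sq_to_K] at c
      simp only [RCLike.norm_natCast, norm_pow, RCLike.norm_ofReal, abs_norm] at c
      push_cast at c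
      by_contra! d
      have := mul_le_mul_of_nonneg_left h2 (norm_nonneg p)
      have e : 0 < (N + 1) * ‖p‖ := by positivity
      nlinarith
    have np : 1 / 2 ≤ ‖x - p‖ := by linarith [norm_sub_norm_le x p]
    let L : Fᗮ →ₗᵢ[ℂ] Fᗮ := ⟨U.toLinearEquiv.toLinearMap.restrict (p := Fᗮ) (q := Fᗮ)
        (fun y hy => by simpa using inv 1 y hy), fun y => U.norm_map y⟩
    have hL : ∀ y, (L y : H) = U y := fun _ => rfl
    let U' : Fᗮ ≃ₗᵢ[ℂ] Fᗮ := LinearIsometryEquiv.ofSurjective L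
      fun y => ⟨⟨_, inv (-1) y y.2⟩, Subtype.ext (by simp [hL])⟩
    let z : ℂ := (‖x - p‖ : ℂ)⁻¹
    have nz : ‖z‖ * ‖x - p‖ = 1 := by simp [z]; field_simp
    have o := orb U' (fun n => z • ⟨_, inv n _ xp⟩) fun n => by
      rw [map_smul]; congr 1; exact Subtype.ext (st U n _)
    obtain ⟨y, y1, y2⟩ := hK Fᗮ U' (z • ⟨_, inv 0 _ xp⟩) (by rw [norm_smul]; exact nz)
      ⟨2 * (1 / (k + 1)), by linarith, fun n hn => by
        rw [o, ← smul_sub, norm_smul]
        change ‖z‖ * ‖(U ^ n) (x - p) - (x - p)‖ ≤ _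
        rw [map_sub, fix p pF, sub_sub_sub_cancel_right]
        exact mul_le_mul (by nlinarith [norm_nonneg z]) (h1 n hn) (norm_nonneg _) two_pos.le⟩
    exact y1 (Subtype.ext (inner_self_eq_zero.1 (y.2 y (congrArg Subtype.val y2))))

theorem result : @MeasurableSet _ (borel (ℤ → Bool)) {q | Kazhdan {n | q n = true}} ∧
    @MeasurableSet _ (borel (ℤ → Bool))
      {q | AddSubgroup.closure {n | q n = true} = ⊤ ∧ ¬ Kazhdan {n | q n = true}} := by
  letI := borel (ℤ → Bool)
  haveI : BorelSpace (ℤ → Bool) := ⟨rfl⟩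
  have a : MeasurableSet {q : ℤ → Bool | ¬ Kazhdan {n | q n = true}} := by
    simp only [not_iff, Set.ofPred_forall, Set.ofPred_exists]
    exact .iInter fun k => .iUnion fun N => (closed _ N).measurableSet
  refine ⟨by simpa [Set.compl_ofPred] using a.compl, MeasurableSet.inter (IsOpen.measurableSet ?_) a⟩
  refine isOpen_iff_mem_nhds.2 fun q hq => ?_
  have : ∀ m ∈ AddSubgroup.closure {n | q n = true},
      ∀ᶠ r in 𝓝 q, m ∈ AddSubgroup.closure {n | r n = true} := fun m hm => by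
    induction hm using AddSubgroup.closure_induction with
    | mem n h => filter_upwards [((continuous_apply n).tendsto q) ((isOpen_discrete {q n}).mem_nhds
        rfl)] with r hr using AddSubgroup.subset_closure (Eq.trans hr h)
    | zero => exact .of_forall fun _ => zero_mem _
    | add _ _ _ _ h h' => filter_upwards [h, h'] with r using add_mem
    | neg _ _ h => filter_upwards [h] with r using neg_mem
  filter_upwards [this 1 (by rw [show _ = ⊤ from hq]; trivial)] with r hr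
  exact eq_top_iff.2 fun n _ => by simpa using zsmul_mem hr n

end Pool.Agent.Results.MP_6f1842_lc.Borel
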